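import Pool.Agent.helper95.T5.SpecN
import Pool.Agent.helper3.FT.G1
import Pool.Agent.helper96.FT.P7
import Pool.Agent.helper47.RA.Num

set_option autoImplicit false

/-!
# T5, module NEAR: the sum of the square roots of the numbers of near points
-/

namespace Pool.Agent.T5

open Finset NumberField Pool.Agent.helper3.FT Pool.Agent.helper47.RA

lemma NEAR_yc_pos (c d : ℕ) : 1 ≤ yc c d := by
  unfold yc
  exact Nat.one_le_iff_ne_zero.2 (Finset.prod_ne_zero_iff.2 fun p hp =>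
    (Nat.prime_of_mem_primeFactors (Finset.mem_filter.1 hp).1).ne_zero)

lemma NEAR_yc_dvd (c d : ℕ) : yc c d ∣ d := by
  unfold yc
  exact (Finset.prod_dvd_prod_of_subset _ _ _ (Finset.filter_subset _ _)).trans
    (Nat.prod_primeFactors_dvd d)

lemma NEAR_yc_squarefree (c d : ℕ) : Squarefree (yc c d) := by
  unfold yc
  refine Finset.squarefree_prod_of_pairwise_isCoprime (fun p hp q hq hpq => ?_) fun p hp => ?_
  · have hp' := Nat.prime_of_mem_primeFactors (Finset.mem_filter.1 hp).1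
    have hq' := Nat.prime_of_mem_primeFactors (Finset.mem_filter.1 hq).1
    exact Nat.coprime_iff_isRelPrime.1 ((Nat.coprime_primes hp' hq').2 hpq)
  · exact (Nat.prime_of_mem_primeFactors (Finset.mem_filter.1 hp).1).prime.squarefree

lemma NEAR_yc_dvd_of (c d m : ℕ) (hd : ∀ p : ℕ, p.Prime → p ∣ d → p ∣ 5 * c * m) : yc c d ∣ m := by
  unfold yc
  refine Finset.prod_primes_dvd m (fun p hp => ?_) (fun p hp => ?_)
  · exact (Nat.prime_of_mem_primeFactors (Finset.mem_filter.1 hp).1).prime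
  · have hp' := Nat.prime_of_mem_primeFactors (Finset.mem_filter.1 hp).1
    have h1 := hd p hp' (Nat.dvd_of_mem_primeFactors (Finset.mem_filter.1 hp).1)
    rcases (Nat.Prime.dvd_mul hp').1 h1 with h2 | h2
    · exact absurd h2 (Finset.mem_filter.1 hp).2
    · exact h2

lemma NEAR_lcm_squarefree (a b : ℕ) (ha : Squarefree a) (hb : Squarefree b) :
    Squarefree (Nat.lcm a b) := by
  have ha0 := ha.ne_zero
  have hb0 := hb.ne_zero
  have hl0 : Nat.lcm a b ≠ 0 := Nat.lcm_ne_zero ha0 hb0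
  rw [Nat.squarefree_iff_factorization_le_one hl0]
  intro p
  rw [Nat.factorization_lcm ha0 hb0, Finsupp.sup_apply]
  exact sup_le (ha.natFactorization_le_one p) (hb.natFactorization_le_one p)

/-- the frequencies and pairs are covered by the split ones -/
theorem NEAR_cover (N K B J c y : ℕ) (hB : B < 2 ^ J) (W : Finset (ℕ × ℕ))
    (hW : W ⊆ pairs N K y) (f : ℕ → ℕ × ℕ → ℝ) (hf : ∀ h p, 0 ≤ f h p) :
    ∑ p ∈ W, ∑ h ∈ Icc 1 B, f h p ≤
      ∑ d ∈ Icc 1 B, ∑ j ∈ range J,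
        ∑ h ∈ (Ico (2 ^ j) (2 * 2 ^ j)).filter (fun h => d * h ≤ B),
          ∑ p ∈ (W.filter (fun p => p ∈ pairs N K (Nat.lcm (yc c d) y))).filter
            (fun p => Nat.Coprime h (5 * c * (p.1 * p.2))), f (d * h) p := by
  classical
  have key : ∀ x : (ℕ × ℕ) × ℕ, ∃ z : (_ : ℕ) × (_ : ℕ) × (_ : ℕ) × (ℕ × ℕ),
      x ∈ W ×ˢ Icc 1 B →
      (z ∈ (Icc 1 B).sigma (fun d => (range J).sigma (fun j =>
        ((Ico (2 ^ j) (2 * 2 ^ j)).filter (fun h => d * h ≤ B)).sigma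
          (fun h => (W.filter (fun p => p ∈ pairs N K (Nat.lcm (yc c d) y))).filter
            (fun p => Nat.Coprime h (5 * c * (p.1 * p.2)))))) ∧
        z.2.2.2 = x.1 ∧ z.1 * z.2.2.1 = x.2) := by
    rintro ⟨p, h⟩
    by_cases hx : (p, h) ∈ W ×ˢ Icc 1 B
    · rw [mem_product, mem_Icc] at hx
      obtain ⟨hp, h1, hB1⟩ := hx
      simp only at hp h1 hB1
      obtain ⟨d, h', e, hc, hd⟩ := split_part (5 * c * (p.1 * p.2)) h h1
      have hd0 : 1 ≤ d := by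
        rcases Nat.eq_zero_or_pos d with h0 | h0
        · subst h0; simp at e; omega
        · exact h0
      have hh0 : 1 ≤ h' := by
        rcases Nat.eq_zero_or_pos h' with h0 | h0
        · subst h0; simp at e; omega
        · exact h0
      have hdB : d ≤ B := by nlinarith
      have hhB : h' ≤ B := by nlinarith
      refine ⟨⟨d, Nat.log 2 h', h', p⟩, fun _ => ⟨?_, rfl, e.symm⟩⟩
      simp only [mem_sigma, mem_Icc, mem_range, mem_filter, mem_Ico]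
      refine ⟨⟨hd0, hdB⟩, ?_, ⟨⟨Nat.pow_log_le_self 2 (by omega), ?_⟩, ?_⟩, ⟨hp, ?_⟩, hc⟩
      · exact Nat.log_lt_of_lt_pow (by omega) (lt_of_le_of_lt hhB hB)
      · have := Nat.lt_pow_succ_log_self (b := 2) (by norm_num) h'
        rw [pow_succ] at this
        omega
      · rw [← e]; exact hB1
      · have hp2 := hW hp
        simp only [pairs, mem_filter] at hp2 ⊢
        exact ⟨hp2.1, hp2.2.1, hp2.2.2.1, hp2.2.2.2.1,
          Nat.lcm_dvd (NEAR_yc_dvd_of c d _ hd) hp2.2.2.2.2⟩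
    · exact ⟨⟨0, 0, 0, 0⟩, fun h => absurd h hx⟩
  choose g hg using key
  have e1 : ∑ p ∈ W, ∑ h ∈ Icc 1 B, f h p =
      ∑ x ∈ W ×ˢ Icc 1 B, f ((g x).1 * (g x).2.2.1) (g x).2.2.2 := by
    rw [← Finset.sum_product']
    refine Finset.sum_congr rfl fun x hx => ?_
    obtain ⟨_, h1, h2⟩ := hg x hx
    rw [h1, h2]
  have e2 : ∑ x ∈ W ×ˢ Icc 1 B, f ((g x).1 * (g x).2.2.1) (g x).2.2.2 =
      ∑ z ∈ (W ×ˢ Icc 1 B).image g, f (z.1 * z.2.2.1) z.2.2.2 := by
    rw [Finset.sum_image]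
    intro x hx x' hx' hxx
    obtain ⟨_, h1, h2⟩ := hg x hx
    obtain ⟨_, h1', h2'⟩ := hg x' hx'
    apply Prod.ext
    · rw [← h1, ← h1', hxx]
    · rw [← h2, ← h2', hxx]
  rw [e1, e2]
  refine (Finset.sum_le_sum_of_subset_of_nonneg (t := (Icc 1 B).sigma (fun d => (range J).sigma
      (fun j => ((Ico (2 ^ j) (2 * 2 ^ j)).filter (fun h => d * h ≤ B)).sigma
          (fun h => (W.filter (fun p => p ∈ pairs N K (Nat.lcm (yc c d) y))).filter
            (fun p => Nat.Coprime h (5 * c * (p.1 * p.2))))))) ?_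
      (fun _ _ _ => hf _ _)).trans (le_of_eq ?_)
  · intro z hz
    obtain ⟨x, hx, rfl⟩ := Finset.mem_image.1 hz
    exact (hg x hx).1
  · rw [Finset.sum_sigma]
    refine Finset.sum_congr rfl fun d _ => ?_
    rw [Finset.sum_sigma]
    refine Finset.sum_congr rfl fun j _ => ?_
    rw [Finset.sum_sigma]

lemma NEAR_omega (δ : ℝ) (hδ : 0 < δ) : ∃ C : ℝ, 1 ≤ C ∧ ∀ y : ℕ, 1 ≤ y →
    (2 : ℝ) ^ y.primeFactors.card ≤ C * (y : ℝ) ^ δ := by
  obtain ⟨C, hC, h⟩ := card_divisors_le δ hδ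
  refine ⟨C, hC, fun y hy => le_trans ?_ (h y hy)⟩
  have h1 : 2 ^ y.primeFactors.card ≤ y.divisors.card := by
    rw [Nat.card_divisors (by omega), ← Finset.prod_const]
    refine Finset.prod_le_prod' fun p hp => ?_
    have hpp := Nat.prime_of_mem_primeFactors hp
    have := (hpp.factorization_pos_of_dvd (by omega) (Nat.dvd_of_mem_primeFactors hp))
    omega
  exact_mod_cast h1

/-- the number of dyadic ranges -/
lemma NEAR_logs (δ : ℝ) (hδ : 0 < δ) : ∃ C : ℝ, 1 ≤ C ∧ ∀ T H : ℕ, 1 ≤ H → H ≤ T →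
    ((Nat.log 2 H + 1 : ℕ) : ℝ) ≤ C * (T : ℝ) ^ δ := by
  have hlog : 0 < Real.log 2 := Real.log_pos (by norm_num)
  refine ⟨1 + 1 / (δ * Real.log 2), by
    have : 0 < 1 / (δ * Real.log 2) := by positivity
    linarith, fun T H hH hHT => ?_⟩
  have hT : (1 : ℝ) ≤ T := by exact_mod_cast hH.trans hHT
  have h1 : 2 ^ Nat.log 2 H ≤ T := (Nat.pow_log_le_self 2 (by omega)).trans hHT
  have h2 : ((2 : ℝ) ^ Nat.log 2 H) ≤ T := by exact_mod_cast h1
  have h3 : (Nat.log 2 H : ℝ) * Real.log 2 ≤ Real.log T := by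
    rw [← Real.log_pow]
    exact Real.log_le_log (by positivity) h2
  have h4 : Real.log T ≤ (T : ℝ) ^ δ / δ := Real.log_le_rpow_div (by linarith) hδ
  have h5 : (Nat.log 2 H : ℝ) ≤ 1 / (δ * Real.log 2) * (T : ℝ) ^ δ := by
    have : (Nat.log 2 H : ℝ) ≤ ((T : ℝ) ^ δ / δ) / Real.log 2 := by
      rw [le_div_iff₀ hlog]
      linarith
    refine this.trans (le_of_eq ?_)
    field_simp
  have h6 : (1 : ℝ) ≤ (T : ℝ) ^ δ := Real.one_le_rpow hT hδ.le
  push_cast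
  linarith

/-- the final inequality of one range -/
lemma NEAR_ineq (P H Nr Kr yr w g Yr Pi0 D a0 a1 : ℝ) (hP : 1 ≤ P) (hw : 1 ≤ w) (hg : 1 ≤ g)
    (hy : 1 ≤ yr) (hPw : P * w ≤ H) (hY : Yr * g = w * yr) (hYr : 0 < Yr) (hN : 0 ≤ Nr) (hK : 0 ≤ Kr)
    (hPi0 : 0 ≤ Pi0) (hD : 0 ≤ D) (ha0 : 0 ≤ a0) (ha1 : 0 ≤ a1) :
    (P * (Nr * Kr / Yr)) * (P * (Nr * Kr / Yr) +
      (Pi0 * (1 + Nr * Kr / (Yr * P)) + (D + a0 * a1 / P) * (Nr * Kr / Yr))) ≤
      ((H * Nr * Kr / yr + √Pi0 * (√(H * Nr * Kr / yr) + Nr * Kr / yr) +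
        √(H * D + a0 * a1) * (Nr * Kr / yr)) * (g / w)) ^ 2 := by
  have hH : 0 ≤ H := le_trans (by positivity) hPw
  set S2 : ℝ := Nr * Kr / yr with hS2
  have hS20 : 0 ≤ S2 := by positivity
  set q : ℝ := g / w with hq
  have hq0 : 0 ≤ q := by positivity
  have e1 : H * Nr * Kr / yr = H * S2 := by rw [hS2]; ring
  have e2 : Nr * Kr / Yr = S2 * q := by
    rw [hS2, hq]
    rw [div_mul_div_comm, div_eq_div_iff hYr.ne' (by positivity)]
    rw [mul_comm yr w, ← hY]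
    ring
  have e3 : Nr * Kr / (Yr * P) = S2 * q / P := by
    rw [← div_div, e2]
  rw [e1, e2, e3]
  have hP0 : P ≠ 0 := by positivity
  have e4 : P * (S2 * q) * (P * (S2 * q) + (Pi0 * (1 + S2 * q / P) + (D + a0 * a1 / P) * (S2 * q))) =
      (P * (S2 * q)) ^ 2 + Pi0 * (P * (S2 * q) + (S2 * q) ^ 2) + (P * D + a0 * a1) * (S2 * q) ^ 2 := by
    field_simp
    ring
  rw [e4]
  have hPH : P ≤ H := le_trans (by nlinarith) hPw
  have b1 : P ≤ H * q := by
    rw [hq, ← mul_div_assoc, le_div_iff₀ (by linarith)]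
    nlinarith
  have s1 : (√Pi0) ^ 2 = Pi0 := Real.sq_sqrt hPi0
  have s2 : (√(H * S2)) ^ 2 = H * S2 := Real.sq_sqrt (by positivity)
  have s3 : (√(H * D + a0 * a1)) ^ 2 = H * D + a0 * a1 := Real.sq_sqrt (by positivity)
  have r1 := Real.sqrt_nonneg Pi0
  have r2 := Real.sqrt_nonneg (H * S2)
  have r3 := Real.sqrt_nonneg (H * D + a0 * a1)
  set x1 := √Pi0
  set x2 := √(H * S2)
  set x3 := √(H * D + a0 * a1)
  have c1 : (P * (S2 * q)) ^ 2 ≤ (H * S2) ^ 2 * q ^ 2 := by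
    have : P * (S2 * q) ≤ H * S2 * q := by nlinarith [mul_nonneg hS20 hq0]
    calc (P * (S2 * q)) ^ 2 ≤ (H * S2 * q) ^ 2 := pow_le_pow_left₀ (by positivity) this 2
      _ = _ := by ring
  have c2 : P * (S2 * q) ≤ (H * S2) * q ^ 2 := by
    calc P * (S2 * q) ≤ (H * q) * (S2 * q) := mul_le_mul_of_nonneg_right b1 (by positivity)
      _ = _ := by ring
  have c3 : (P * D + a0 * a1) * (S2 * q) ^ 2 ≤ (H * D + a0 * a1) * S2 ^ 2 * q ^ 2 := by
    have : P * D + a0 * a1 ≤ H * D + a0 * a1 := by nlinarith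
    calc (P * D + a0 * a1) * (S2 * q) ^ 2 ≤ (H * D + a0 * a1) * (S2 * q) ^ 2 :=
          mul_le_mul_of_nonneg_right this (by positivity)
      _ = _ := by ring
  calc (P * (S2 * q)) ^ 2 + Pi0 * (P * (S2 * q) + (S2 * q) ^ 2) + (P * D + a0 * a1) * (S2 * q) ^ 2
      ≤ (H * S2) ^ 2 * q ^ 2 + Pi0 * ((H * S2) * q ^ 2 + (S2 * q) ^ 2) +
        (H * D + a0 * a1) * S2 ^ 2 * q ^ 2 := by
        have := mul_le_mul_of_nonneg_left c2 hPi0
        nlinarith
    _ = ((H * S2) ^ 2 + x1 ^ 2 * (x2 ^ 2 + S2 ^ 2) + x3 ^ 2 * S2 ^ 2) * q ^ 2 := by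
        rw [s1, s2, s3]; ring
    _ ≤ (H * S2 + x1 * (x2 + S2) + x3 * S2) ^ 2 * q ^ 2 := by
        refine mul_le_mul_of_nonneg_right ?_ (by positivity)
        have p1 : 0 ≤ H * S2 := by positivity
        have p2 : 0 ≤ x1 * x2 := by positivity
        have p3 : 0 ≤ x1 * S2 := by positivity
        have p4 : 0 ≤ x3 * S2 := by positivity
        have : (H * S2 + x1 * (x2 + S2) + x3 * S2) ^ 2 =
            ((H * S2) ^ 2 + x1 ^ 2 * (x2 ^ 2 + S2 ^ 2) + x3 ^ 2 * S2 ^ 2) +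
            2 * ((x1 * x2) * (x1 * S2) + (H * S2) * (x1 * x2) + (H * S2) * (x1 * S2) +
              (H * S2) * (x3 * S2) + (x1 * x2) * (x3 * S2) + (x1 * S2) * (x3 * S2)) := by ring
        rw [this]
        have : 0 ≤ (x1 * x2) * (x1 * S2) + (H * S2) * (x1 * x2) + (H * S2) * (x1 * S2) +
              (H * S2) * (x3 * S2) + (x1 * x2) * (x3 * S2) + (x1 * S2) * (x3 * S2) := by positivity
        linarith
    _ = _ := by ring

/-- one divisor and one dyadic range -/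
lemma NEAR_one (hNS4 : NS4_stmt) (hDC4 : DC4_stmt) (δ : ℝ) (hδ : 0 < δ) :
    ∃ C : ℝ, 1 ≤ C ∧ ∀ (T N K M G H e q₁ q₂ y d P : ℕ) (a : Fin 4 → ℕ) (W : Finset (ℕ × ℕ))
    (r s : ℕ × ℕ → ℕ) (ρ : ℕ × ℕ → ℤ × ℤ × ℤ),
    1 ≤ N → N ≤ T → 1 ≤ K → K ≤ T → 1 ≤ M → 1 ≤ G → 1 ≤ H → H ≤ T → 1 ≤ e → 1 ≤ q₁ → 1 ≤ q₂ →
    q₁ * q₂ * e ≤ T → 1 ≤ y → y ≤ T → (∀ i, a i ≤ T) → Squarefree y →
    Sides N K M G H e q₁ q₂ a → W ⊆ pairs N K y → Resid W q₁ q₂ e r s ρ → 1 ≤ d → d ≤ H → 1 ≤ P →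
    ∑ h ∈ (Ico P (2 * P)).filter (fun h => d * h ≤ H),
      ∑ p ∈ (W.filter (fun p => p ∈ pairs N K (Nat.lcm (yc (q₁ * q₂ * e) d) y))).filter
        (fun p => Nat.Coprime h (5 * (q₁ * q₂ * e) * (p.1 * p.2))), √(nearG M G e ρ (d * h) p) ≤
      C * (T : ℝ) ^ (2 * δ) * (nB N K H y q₁ q₂ e a *
        ((Nat.gcd (yc (q₁ * q₂ * e) d) y : ℝ) / (yc (q₁ * q₂ * e) d : ℝ))) := by
  classical
  obtain ⟨C2, hC2, hO⟩ := NEAR_omega δ hδ
  obtain ⟨C3, hC3, hD⟩ := hDC4 δ hδ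
  refine ⟨C2 + C3, by linarith, ?_⟩
  intro T N K M G H e q₁ q₂ y d P a W r s ρ hN hNT hK hKT hM hG hH hHT he hq1 hq2 hcT hy hyT ha hsq
    hS hW hR hd hdH hP
  set c := q₁ * q₂ * e with hc
  have hc1 : 1 ≤ c := by
    rw [hc]
    exact Nat.one_le_iff_ne_zero.2 (by positivity)
  have hT : 1 ≤ T := hN.trans hNT
  have hTR : (1 : ℝ) ≤ T := by exact_mod_cast hT
  set w := yc c d with hw
  have hw1 : 1 ≤ w := NEAR_yc_pos c d
  have hwd : w ≤ d := Nat.le_of_dvd hd (NEAR_yc_dvd c d)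
  set Y := Nat.lcm w y with hY
  have hYsq : Squarefree Y := NEAR_lcm_squarefree _ _ (NEAR_yc_squarefree c d) hsq
  have hY1 : 1 ≤ Y := Nat.one_le_iff_ne_zero.2 hYsq.ne_zero
  have hYT : Y ≤ T ^ 2 := by
    have h1 : Y ≤ w * y := Nat.le_of_dvd (by positivity) (Nat.lcm_dvd_mul w y)
    calc Y ≤ w * y := h1
      _ ≤ T * T := Nat.mul_le_mul (hwd.trans (hdH.trans hHT)) hyT
      _ = T ^ 2 := by ring
  have hgl : Nat.gcd w y * Y = w * y := Nat.gcd_mul_lcm w y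
  have hg1 : 1 ≤ Nat.gcd w y := Nat.gcd_pos_of_pos_left _ hw1
  set Wd := W.filter (fun p => p ∈ pairs N K Y) with hWd
  set HS := (Ico P (2 * P)).filter (fun h => d * h ≤ H) with hHS
  set PS : ℕ → Finset (ℕ × ℕ) :=
    fun h => Wd.filter (fun p => Nat.Coprime h (5 * c * (p.1 * p.2))) with hPS
  have hnB0 : 0 ≤ nB N K H y q₁ q₂ e a := by
    unfold nB
    positivity
  rcases HS.eq_empty_or_nonempty with hemp | ⟨h0, hh0⟩
  · rw [hemp, Finset.sum_empty]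
    positivity
  have hdP : d * P ≤ H := by
    rw [hHS, mem_filter, mem_Ico] at hh0
    exact (Nat.mul_le_mul_left _ hh0.1.1).trans hh0.2
  have hPH : P ≤ H := by nlinarith
  have hPw : P * w ≤ H := by nlinarith
  have hTT : T ≤ T ^ 2 := by nlinarith
  -- Cauchy-Schwarz
  have hcs : (∑ h ∈ HS, ∑ p ∈ PS h, √(nearG M G e ρ (d * h) p)) ^ 2 ≤
      ((P : ℝ) * (pairs N K Y).card) * ∑ h ∈ HS, ∑ p ∈ PS h, nearG M G e ρ (d * h) p := by
    have h0 : ∑ h ∈ HS, ∑ p ∈ PS h, nearG M G e ρ (d * h) p =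
        ∑ h ∈ HS, ∑ p ∈ PS h, (√(nearG M G e ρ (d * h) p)) ^ 2 := by
      refine Finset.sum_congr rfl fun h _ => Finset.sum_congr rfl fun p _ => ?_
      rw [Real.sq_sqrt]
      unfold nearG
      exact Nat.cast_nonneg _
    rw [h0, Finset.sum_sigma' HS PS, Finset.sum_sigma' HS PS]
    refine (sq_sum_le_card_mul_sum_sq).trans ?_
    refine mul_le_mul_of_nonneg_right ?_ (Finset.sum_nonneg fun _ _ => sq_nonneg _)
    rw [Finset.card_sigma]
    have h1 : ∑ h ∈ HS, (PS h).card ≤ P * (pairs N K Y).card := by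
      calc ∑ h ∈ HS, (PS h).card ≤ ∑ _h ∈ HS, (pairs N K Y).card := by
            refine Finset.sum_le_sum fun h _ => ?_
            refine (Finset.card_filter_le _ _).trans (Finset.card_le_card ?_)
            intro p hp
            exact (Finset.mem_filter.1 hp).2
        _ = HS.card * (pairs N K Y).card := by rw [Finset.sum_const, smul_eq_mul]
        _ ≤ P * (pairs N K Y).card := by
            refine Nat.mul_le_mul_right _ ?_
            refine (Finset.card_filter_le _ _).trans ?_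
            rw [Nat.card_Ico]; omega
    exact_mod_cast h1
  -- near points
  set s' : ℕ × ℕ → ℕ := fun p => if p ∈ W then s p else 1 with hs'
  have hs'e : ∀ p, s' p ∣ e := by
    intro p
    simp only [hs']
    split_ifs with hp
    · exact ⟨r p, by rw [mul_comm]; exact (hR p hp).1.symm⟩
    · exact one_dvd _
  have hR' : Resid Wd q₁ q₂ e r s' ρ := by
    intro p hp
    have hpW : p ∈ W := (Finset.mem_filter.1 hp).1
    have e1 : s' p = s p := by simp only [hs', if_pos hpW]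
    rw [e1]
    exact hR p hpW
  have hns := hNS4 N K M G H e q₁ q₂ d P Y c a Wd r s' ρ hN hK hM hG he hq1 hq2 hd hP hS
    (fun p hp => (Finset.mem_filter.1 hp).2) hR'
  have hdual := hD (T ^ 2) N K Y P c q₁ q₂ e s' a hN (hNT.trans hTT) hK (hKT.trans hTT) hP
    ((hPH.trans hHT).trans hTT) hY1 hYT hc1 (hcT.trans hTT) (dvd_refl _) (fun i => (ha i).trans hTT)
    hYsq hs'e
  -- the number of pairs
  set t : ℝ := (T : ℝ) ^ (2 * δ) with ht
  have ht1 : 1 ≤ t := Real.one_le_rpow hTR (by positivity)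
  have htt : (((T ^ 2 : ℕ) : ℝ)) ^ δ = t := by
    rw [ht]
    push_cast
    rw [← Real.rpow_natCast, ← Real.rpow_mul (by linarith)]
    norm_num
  rw [htt] at hdual
  have hYR : (1 : ℝ) ≤ Y := by exact_mod_cast hY1
  have hpairs : ((pairs N K Y).card : ℝ) ≤ C2 * t * (N * K / Y) := by
    refine (pairs_card N K Y hYsq).trans ?_
    refine mul_le_mul_of_nonneg_right ((hO Y hY1).trans ?_) (by positivity)
    refine mul_le_mul_of_nonneg_left ?_ (by linarith)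
    rw [← htt]
    refine Real.rpow_le_rpow (by linarith) ?_ hδ.le
    exact_mod_cast hYT
  have hcore := NEAR_ineq P H N K y w (Nat.gcd w y) Y (∏ i, (2 * (a i : ℝ) + 1))
    ((q₂ * a 0 : ℝ) * (q₁ * e * a 3) + (a 1 + 1) * (e * a 2 + 1) + (a 1 + 1) * (q₁ * e * a 3 + 1) +
      (e * a 2 + 1) * (q₁ * e * a 3 + 1) + q₂ * a 0 + a 0 + a 1) (a 0) (a 1)
    (by exact_mod_cast hP) (by exact_mod_cast hw1) (by exact_mod_cast hg1) (by exact_mod_cast hy)
    (by exact_mod_cast hPw) (by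
      have : Y * Nat.gcd w y = w * y := by rw [mul_comm]; exact hgl
      exact_mod_cast this) (by linarith) (by positivity) (by positivity) (by positivity)
    (by positivity) (by positivity) (by positivity)
  set R : ℝ := (P : ℝ) * (N * K / Y) +
    ((∏ i, (2 * (a i : ℝ) + 1)) * (1 + N * K / (Y * P)) +
      (((q₂ * a 0 : ℝ) * (q₁ * e * a 3) + (a 1 + 1) * (e * a 2 + 1) + (a 1 + 1) * (q₁ * e * a 3 + 1) +
      (e * a 2 + 1) * (q₁ * e * a 3 + 1) + q₂ * a 0 + a 0 + a 1) + (a 0 : ℝ) * a 1 / P) *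
        (N * K / Y)) with hRdef
  have hR0 : 0 ≤ R := by positivity
  have hdB : dB N K Y P q₁ q₂ e a = (∏ i, (2 * (a i : ℝ) + 1)) * (1 + N * K / (Y * P)) +
      (((q₂ * a 0 : ℝ) * (q₁ * e * a 3) + (a 1 + 1) * (e * a 2 + 1) + (a 1 + 1) * (q₁ * e * a 3 + 1) +
      (e * a 2 + 1) * (q₁ * e * a 3 + 1) + q₂ * a 0 + a 0 + a 1) + (a 0 : ℝ) * a 1 / P) *
        (N * K / Y) := by
    unfold dB
    ring
  have hdB0 : 0 ≤ dB N K Y P q₁ q₂ e a := by
    unfold dB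
    positivity
  have hsum : ∑ h ∈ HS, ∑ p ∈ PS h, nearG M G e ρ (d * h) p ≤ (C2 + C3) * t * R := by
    refine hns.trans ?_
    have h1 : (P : ℝ) * (pairs N K Y).card ≤ C2 * t * ((P : ℝ) * (N * K / Y)) := by
      calc (P : ℝ) * (pairs N K Y).card ≤ P * (C2 * t * (N * K / Y)) :=
            mul_le_mul_of_nonneg_left hpairs (by positivity)
        _ = _ := by ring
    have h3 : R = (P : ℝ) * (N * K / Y) + dB N K Y P q₁ q₂ e a := by rw [hRdef, hdB]
    have h4 : 0 ≤ (P : ℝ) * (N * K / Y) := by positivity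
    rw [h3]
    have h5 : 0 ≤ C3 * t * ((P : ℝ) * (N * K / Y)) := by positivity
    have h6 : 0 ≤ C2 * t * dB N K Y P q₁ q₂ e a := by positivity
    nlinarith
  set q : ℝ := (Nat.gcd w y : ℝ) / (w : ℝ) with hq
  have hq0 : 0 ≤ q := by positivity
  have hnB : nB N K H y q₁ q₂ e a = (H : ℝ) * N * K / y +
      √(∏ i, (2 * (a i : ℝ) + 1)) * (√((H : ℝ) * N * K / y) + (N : ℝ) * K / y) +
    √(H * ((q₂ * a 0 : ℝ) * (q₁ * e * a 3) + (a 1 + 1) * (e * a 2 + 1) + (a 1 + 1) * (q₁ * e * a 3 + 1) +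
      (e * a 2 + 1) * (q₁ * e * a 3 + 1) + q₂ * a 0 + a 0 + a 1) + (a 0 : ℝ) * a 1) *
      ((N : ℝ) * K / y) := rfl
  rw [← hnB] at hcore
  set V : ℝ := nB N K H y q₁ q₂ e a * q with hV
  have hV0 : 0 ≤ V := by positivity
  have hfin : (∑ h ∈ HS, ∑ p ∈ PS h, √(nearG M G e ρ (d * h) p)) ^ 2 ≤
      ((C2 + C3) * t * V) ^ 2 := by
    calc (∑ h ∈ HS, ∑ p ∈ PS h, √(nearG M G e ρ (d * h) p)) ^ 2
        ≤ ((P : ℝ) * (pairs N K Y).card) * ∑ h ∈ HS, ∑ p ∈ PS h, nearG M G e ρ (d * h) p := hcs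
      _ ≤ (P * (C2 * t * (N * K / Y))) * ((C2 + C3) * t * R) := by
          refine mul_le_mul (mul_le_mul_of_nonneg_left hpairs (by positivity)) hsum
            (Finset.sum_nonneg fun _ _ => Finset.sum_nonneg fun _ _ => ?_) (by positivity)
          unfold nearG
          exact Nat.cast_nonneg _
      _ = (C2 * (C2 + C3)) * t ^ 2 * ((P * (N * K / Y)) * R) := by ring
      _ ≤ ((C2 + C3) * (C2 + C3)) * t ^ 2 * V ^ 2 := by
          refine mul_le_mul ?_ hcore (by positivity) (by positivity)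
          refine mul_le_mul_of_nonneg_right ?_ (by positivity)
          exact mul_le_mul_of_nonneg_right (by linarith) (by linarith)
      _ = _ := by ring
  exact abs_le_of_sq_le_sq' hfin (by positivity) |>.2

theorem NEAR (hNS4 : NS4_stmt) (hDC4 : DC4_stmt) (hSS : SS_stmt) : NEAR_stmt := by
  classical
  intro ε hε
  set δ := ε / 4 with hδdef
  have hδ : 0 < δ := by positivity
  obtain ⟨C1, hC1, h1⟩ := NEAR_one hNS4 hDC4 δ hδ
  obtain ⟨C2, hC2, h2⟩ := NEAR_logs δ hδ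
  obtain ⟨C3, hC3, h3⟩ := hSS δ hδ
  refine ⟨C1 * C2 * C3, by
    have : 1 ≤ C1 * C2 := by nlinarith
    nlinarith, ?_⟩
  intro T N K M G H e q₁ q₂ y a W r s ρ hN hNT hK hKT hM hG hH hHT he hq1 hq2 hcT hy hyT ha hsq
    hS hW hR
  set c := q₁ * q₂ * e with hc
  have hc1 : 1 ≤ c := by
    rw [hc]
    exact Nat.one_le_iff_ne_zero.2 (by positivity)
  have hT : 1 ≤ T := hN.trans hNT
  have hTR : (1 : ℝ) ≤ T := by exact_mod_cast hT
  have hnB0 : 0 ≤ nB N K H y q₁ q₂ e a := by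
    unfold nB
    positivity
  set J := Nat.log 2 H + 1 with hJ
  have hHJ : H < 2 ^ J := Nat.lt_pow_succ_log_self (by norm_num) H
  refine (NEAR_cover N K H J c y hHJ W hW (fun h p => √(nearG M G e ρ h p))
    (fun _ _ => Real.sqrt_nonneg _)).trans ?_
  have hone : ∀ d ∈ Icc 1 H, ∑ j ∈ range J,
        ∑ h ∈ (Ico (2 ^ j) (2 * 2 ^ j)).filter (fun h => d * h ≤ H),
          ∑ p ∈ (W.filter (fun p => p ∈ pairs N K (Nat.lcm (yc c d) y))).filter
            (fun p => Nat.Coprime h (5 * c * (p.1 * p.2))), √(nearG M G e ρ (d * h) p) ≤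
      (J : ℝ) * (C1 * (T : ℝ) ^ (2 * δ) * nB N K H y q₁ q₂ e a) *
        ((Nat.gcd (yc c d) y : ℝ) / (yc c d : ℝ)) := by
    intro d hd
    rw [mem_Icc] at hd
    calc _ ≤ ∑ _j ∈ range J, C1 * (T : ℝ) ^ (2 * δ) * (nB N K H y q₁ q₂ e a *
        ((Nat.gcd (yc c d) y : ℝ) / (yc c d : ℝ))) := by
          refine Finset.sum_le_sum fun j _ => ?_
          exact h1 T N K M G H e q₁ q₂ y d (2 ^ j) a W r s ρ hN hNT hK hKT hM hG hH hHT he hq1 hq2
            hcT hy hyT ha hsq hS hW hR hd.1 hd.2 (Nat.one_le_two_pow)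
      _ = _ := by
          rw [Finset.sum_const, card_range, nsmul_eq_mul]
          ring
  refine (Finset.sum_le_sum hone).trans ?_
  rw [← Finset.mul_sum]
  have hJ2 := h2 T H hH hHT
  have hs3 := h3 T H c y hH hHT hc1 hcT hy hyT hsq
  set t : ℝ := (T : ℝ) ^ δ with ht
  have ht0 : 0 < t := Real.rpow_pos_of_pos (by linarith) _
  have ht2 : (T : ℝ) ^ (2 * δ) = t ^ 2 := by
    rw [ht, sq, ← Real.rpow_add (by linarith)]; ring_nf
  have ht4 : (T : ℝ) ^ ε = t ^ 4 := by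
    rw [ht, ← Real.rpow_natCast, ← Real.rpow_mul (by linarith)]
    congr 1
    rw [hδdef]; push_cast; ring
  rw [ht2, ht4]
  calc (J : ℝ) * (C1 * t ^ 2 * nB N K H y q₁ q₂ e a) *
        ∑ d ∈ Icc 1 H, (Nat.gcd (yc c d) y : ℝ) / (yc c d : ℝ)
      ≤ (C2 * t) * (C1 * t ^ 2 * nB N K H y q₁ q₂ e a) * (C3 * t) := by
        refine mul_le_mul ?_ hs3 (Finset.sum_nonneg fun _ _ => by positivity) (by positivity)
        exact mul_le_mul_of_nonneg_right hJ2 (by positivity)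
    _ = _ := by ring

end Pool.Agent.T5
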