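import Pool.Agent.helper95.T5.SpecE

set_option autoImplicit false

/-!
# T5, module TWD: the sum over the medium primes
-/

namespace Pool.Agent.T5

open Finset NumberField Pool.Agent.helper3.FT Pool.Agent.helper47.RA

lemma TWD_relE_mono (δ N Y Y₂ y y' : ℝ) (hN : 0 ≤ N) (hS : 0 ≤ Y * Y₂ / N) (h : y ≤ y') :
    relE δ N Y Y₂ y ≤ relE δ N Y Y₂ y' := by
  unfold relE
  have h1 : √(y * (Y * Y₂ / N)) ≤ √(y' * (Y * Y₂ / N)) :=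
    Real.sqrt_le_sqrt (mul_le_mul_of_nonneg_right h hS)
  have h2 : 0 ≤ (Y * Y₂ / N) ^ (3 / 2 : ℝ) := Real.rpow_nonneg hS _
  have h3 : 0 ≤ N ^ (δ / 100) := Real.rpow_nonneg hN _
  exact mul_le_mul_of_nonneg_left (by linarith)
    (mul_nonneg (mul_nonneg h3 (Real.sqrt_nonneg _)) h2)

lemma TWD_relE_nonneg (δ N Y Y₂ y : ℝ) (hN : 0 ≤ N) (hS : 0 ≤ Y * Y₂ / N) :
    0 ≤ relE δ N Y Y₂ y := by
  unfold relE
  have h2 : 0 ≤ (Y * Y₂ / N) ^ (3 / 2 : ℝ) := Real.rpow_nonneg hS _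
  have h3 : 0 ≤ N ^ (δ / 100) := Real.rpow_nonneg hN _
  have h4 := Real.sqrt_nonneg (y * (Y * Y₂ / N))
  exact mul_nonneg (mul_nonneg (mul_nonneg h3 (Real.sqrt_nonneg _)) h2) (by linarith)

/-- the final inequality -/
lemma TWD_fin (δ N C : ℝ) (hδ : 0 < δ) (hC : 1 ≤ C) (hN1 : 1 ≤ N) (hN : 12 * C ≤ N ^ (δ / 20000)) :
    3 * C * (2 / N ^ (δ / 10000)) + 3 * (N ^ (δ / 100) * N ^ (-(δ / 3))) ≤ N ^ (-(δ / 20000)) := by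
  have hN0 : 0 < N := by linarith
  obtain ⟨z, hz⟩ : ∃ z : ℝ, z = N ^ (δ / 20000) := ⟨_, rfl⟩
  rw [← hz] at hN
  have hz0 : 0 < z := by linarith
  have e1 : N ^ (δ / 10000) = z ^ 2 := by
    rw [hz, ← Real.rpow_natCast, ← Real.rpow_mul hN0.le]
    congr 1
    push_cast
    ring
  have e2 : N ^ (-(δ / 20000)) = 1 / z := by
    rw [Real.rpow_neg hN0.le, ← hz, one_div]
  have e3 : N ^ (δ / 100) * N ^ (-(δ / 3)) ≤ 1 / z ^ 2 := by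
    rw [← e1, ← Real.rpow_add hN0, one_div, ← Real.rpow_neg hN0.le]
    exact Real.rpow_le_rpow_of_exponent_le hN1 (by linarith)
  rw [e1, e2]
  have e4 : 3 * C * (2 / z ^ 2) + 3 * (1 / z ^ 2) ≤ 1 / z := by
    rw [div_eq_mul_inv, div_eq_mul_inv, div_eq_mul_inv]
    have h1 : (z ^ 2)⁻¹ = z⁻¹ * z⁻¹ := by rw [sq, mul_inv]
    rw [h1]
    have h2 : 0 < z⁻¹ := inv_pos.2 hz0
    have h3 : z * z⁻¹ = 1 := mul_inv_cancel₀ hz0.ne'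
    have h4 : (6 * C + 3) * z⁻¹ ≤ 1 := by
      rw [← h3]
      exact mul_le_mul_of_nonneg_right (by linarith) h2.le
    have h5 := mul_le_mul_of_nonneg_right h4 h2.le
    linarith
  linarith

theorem TWD (δ : ℝ) (hδ : 0 < δ) (hδ1 : δ ≤ 1 / 10) (hTWA : TWA_stmt δ) (hTWB : TWB_stmt δ)
    (hTWC : TWC_stmt δ) (hRelSum : RelSum_stmt δ) : TWD_stmt δ := by
  classical
  intro κ hκ
  obtain ⟨C1, N1, hC1, h1⟩ := hTWA κ hκ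
  obtain ⟨C2, N2, hC2, h2⟩ := hTWB κ hκ
  obtain ⟨C3, N3, hC3, h3⟩ := hTWC κ hκ
  obtain ⟨N4, h4⟩ := hRelSum
  obtain ⟨C, hC⟩ : ∃ C : ℝ, C = C1 + C2 + C3 := ⟨_, rfl⟩
  have hC1' : 1 ≤ C := by linarith
  refine ⟨δ / 20000, max (max N1 N2) (max (max N3 N4) ((12 * C) ^ (20000 / δ))), by positivity, ?_⟩
  intro N Y hN hY hY2 F hF
  have hN1 : N1 ≤ N := ((le_max_left _ _).trans (le_max_left _ _)).trans hN
  have hN2 : N2 ≤ N := ((le_max_right _ _).trans (le_max_left _ _)).trans hN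
  have hN3 : N3 ≤ N := (((le_max_left _ _).trans (le_max_left _ _)).trans (le_max_right _ _)).trans hN
  have hN4 : N4 ≤ N := (((le_max_right _ _).trans (le_max_left _ _)).trans (le_max_right _ _)).trans hN
  have hNC : (12 * C) ^ (20000 / δ) ≤ N := ((le_max_right _ _).trans (le_max_right _ _)).trans hN
  have hNone : 1 ≤ N := (Real.one_le_rpow (by linarith) (by positivity)).trans hNC
  have hN0 : 0 < N := by linarith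
  have hz : 12 * C ≤ N ^ (δ / 20000) := by
    have h5 : ((12 * C) ^ (20000 / δ)) ^ (δ / 20000) = 12 * C := by
      rw [← Real.rpow_mul (by linarith)]
      have : 20000 / δ * (δ / 20000) = 1 := by field_simp
      rw [this, Real.rpow_one]
    rw [← h5]
    exact Real.rpow_le_rpow (Real.rpow_nonneg (by linarith) _) hNC (by positivity)
  have hY0 : 0 < Y := (Real.rpow_pos_of_pos hN0 _).trans_le hY
  obtain ⟨Y₂, hY₂⟩ : ∃ Y₂ : ℝ, Y₂ = N ^ (1 / 2 + δ / 100) := ⟨_, rfl⟩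
  have hY₂0 : 0 < Y₂ := by rw [hY₂]; exact Real.rpow_pos_of_pos hN0 _
  have hS : 0 ≤ Y * Y₂ / N := by positivity
  obtain ⟨p0, hp0⟩ : ∃ p0 : ℝ, p0 = Y₂ / Y := ⟨_, rfl⟩
  have hp00 : 0 ≤ p0 := by rw [hp0]; positivity
  obtain ⟨x, hx⟩ : ∃ x : ℝ, x = N ^ (δ / 10000) := ⟨_, rfl⟩
  have hx1 : 1 ≤ x := by rw [hx]; exact Real.one_le_rpow hNone (by positivity)
  have hRS := h4 N Y hN4 hY hY2
  have g1 := h1 N Y hN1 hY hY2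
  have g2 := h2 N Y hN2 hY hY2
  have g3 := h3 N Y hN3 hY hY2
  rw [← hY₂] at hF hRS g1 g2 g3 ⊢
  rw [← hp0] at hF hRS g1 g2 g3
  rw [← hx] at hF
  obtain ⟨E, hE⟩ : ∃ E : ℝ, E = N ^ (δ / 100) * relE δ N Y Y₂ p0 := ⟨_, rfl⟩
  have hE0 : 0 ≤ E := by
    rw [hE]
    exact mul_nonneg (Real.rpow_nonneg hN0.le _) (TWD_relE_nonneg δ N Y Y₂ p0 hN0.le hS)
  have hV0 : 0 ≤ Y * Y₂ := by positivity
  set QQ := (Ioo ⌊x⌋₊ (⌊p0⌋₊ + 1)).filter Nat.Prime with hQQ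
  have hmem : ∀ q ∈ QQ, q.Prime ∧ (q : ℝ) ≤ p0 := by
    intro q hq
    rw [hQQ, mem_filter, mem_Ioo] at hq
    refine ⟨hq.2, ?_⟩
    have h5 : q ≤ ⌊p0⌋₊ := by omega
    exact (Nat.cast_le.2 h5).trans (Nat.floor_le hp00)
  have hone : ∀ q ∈ QQ,
      (((F.filter (fun t => ¬ q ∣ t.1.1 * t.1.2 ∧ (q : ℤ) ∣ t.2.2.2 ∧ (q : ℤ) ∣ t.2.1) ∪
        F.filter (fun t => ¬ q ∣ t.1.1 * t.1.2 ∧ (q : ℤ) ∣ t.2.2.2 ∧ (q : ℤ) ∣ t.2.2.1)) ∪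
        F.filter (fun t => q ∣ t.1.1 * t.1.2 ∧ (q : ℤ) ∣ t.2.1 * t.2.2.1)).card : ℝ) ≤
        3 * (C * ((q : ℝ) ^ 2)⁻¹ + E) * (Y * Y₂) := by
    intro q hq
    obtain ⟨hqp, hqp0⟩ := hmem q hq
    have hq0 : (0 : ℝ) < q := by exact_mod_cast hqp.pos
    have hmono := TWD_relE_mono δ N Y Y₂ q p0 hN0.le hS hqp0
    have hE1 : N ^ (δ / 100) * relE δ N Y Y₂ q ≤ E := by
      rw [hE]
      exact mul_le_mul_of_nonneg_left hmono (Real.rpow_nonneg hN0.le _)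
    have hbd : ∀ Ci : ℝ, Ci ≤ C → (Ci / (q : ℝ) ^ 2 + N ^ (δ / 100) * relE δ N Y Y₂ q) * (Y * Y₂) ≤
        (C * ((q : ℝ) ^ 2)⁻¹ + E) * (Y * Y₂) := by
      intro Ci hCi
      refine mul_le_mul_of_nonneg_right ?_ hV0
      rw [div_eq_mul_inv]
      have : 0 < ((q : ℝ) ^ 2)⁻¹ := by positivity
      have := mul_le_mul_of_nonneg_right hCi this.le
      linarith
    have a1 := (g1 q hqp hqp0 (F.filter (fun t => ¬ q ∣ t.1.1 * t.1.2 ∧ (q : ℤ) ∣ t.2.2.2 ∧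
      (q : ℤ) ∣ t.2.1)) (fun t ht => by
        rw [mem_filter] at ht
        exact ⟨(hF t ht.1).1, ht.2⟩)).trans (hbd C1 (by linarith))
    have a2 := (g2 q hqp hqp0 (F.filter (fun t => ¬ q ∣ t.1.1 * t.1.2 ∧ (q : ℤ) ∣ t.2.2.2 ∧
      (q : ℤ) ∣ t.2.2.1)) (fun t ht => by
        rw [mem_filter] at ht
        exact ⟨(hF t ht.1).1, ht.2⟩)).trans (hbd C2 (by linarith))
    have a3 := (g3 q hqp hqp0 (F.filter (fun t => q ∣ t.1.1 * t.1.2 ∧ (q : ℤ) ∣ t.2.1 * t.2.2.1))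
      (fun t ht => by
        rw [mem_filter] at ht
        exact ⟨(hF t ht.1).1, ht.2⟩)).trans (hbd C3 (by linarith))
    have c1 := card_union_le (F.filter (fun t => ¬ q ∣ t.1.1 * t.1.2 ∧ (q : ℤ) ∣ t.2.2.2 ∧
      (q : ℤ) ∣ t.2.1)) (F.filter (fun t => ¬ q ∣ t.1.1 * t.1.2 ∧ (q : ℤ) ∣ t.2.2.2 ∧
      (q : ℤ) ∣ t.2.2.1))
    have c2 := card_union_le ((F.filter (fun t => ¬ q ∣ t.1.1 * t.1.2 ∧ (q : ℤ) ∣ t.2.2.2 ∧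
      (q : ℤ) ∣ t.2.1)) ∪ (F.filter (fun t => ¬ q ∣ t.1.1 * t.1.2 ∧ (q : ℤ) ∣ t.2.2.2 ∧
      (q : ℤ) ∣ t.2.2.1))) (F.filter (fun t => q ∣ t.1.1 * t.1.2 ∧ (q : ℤ) ∣ t.2.1 * t.2.2.1))
    have c1' : (((F.filter (fun t => ¬ q ∣ t.1.1 * t.1.2 ∧ (q : ℤ) ∣ t.2.2.2 ∧
      (q : ℤ) ∣ t.2.1)) ∪ (F.filter (fun t => ¬ q ∣ t.1.1 * t.1.2 ∧ (q : ℤ) ∣ t.2.2.2 ∧
      (q : ℤ) ∣ t.2.2.1))).card : ℝ) ≤ ((F.filter (fun t => ¬ q ∣ t.1.1 * t.1.2 ∧ (q : ℤ) ∣ t.2.2.2 ∧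
      (q : ℤ) ∣ t.2.1)).card : ℝ) + ((F.filter (fun t => ¬ q ∣ t.1.1 * t.1.2 ∧ (q : ℤ) ∣ t.2.2.2 ∧
      (q : ℤ) ∣ t.2.2.1)).card : ℝ) := by exact_mod_cast c1
    have c2' : ((((F.filter (fun t => ¬ q ∣ t.1.1 * t.1.2 ∧ (q : ℤ) ∣ t.2.2.2 ∧
      (q : ℤ) ∣ t.2.1)) ∪ (F.filter (fun t => ¬ q ∣ t.1.1 * t.1.2 ∧ (q : ℤ) ∣ t.2.2.2 ∧
      (q : ℤ) ∣ t.2.2.1))) ∪ (F.filter (fun t => q ∣ t.1.1 * t.1.2 ∧
      (q : ℤ) ∣ t.2.1 * t.2.2.1))).card : ℝ) ≤ (((F.filter (fun t => ¬ q ∣ t.1.1 * t.1.2 ∧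
      (q : ℤ) ∣ t.2.2.2 ∧ (q : ℤ) ∣ t.2.1)) ∪ (F.filter (fun t => ¬ q ∣ t.1.1 * t.1.2 ∧
      (q : ℤ) ∣ t.2.2.2 ∧ (q : ℤ) ∣ t.2.2.1))).card : ℝ) + ((F.filter (fun t => q ∣ t.1.1 * t.1.2 ∧
      (q : ℤ) ∣ t.2.1 * t.2.2.1)).card : ℝ) := by exact_mod_cast c2
    linarith
  have hcov : F ⊆ QQ.biUnion (fun q =>
      ((F.filter (fun t => ¬ q ∣ t.1.1 * t.1.2 ∧ (q : ℤ) ∣ t.2.2.2 ∧ (q : ℤ) ∣ t.2.1) ∪
        F.filter (fun t => ¬ q ∣ t.1.1 * t.1.2 ∧ (q : ℤ) ∣ t.2.2.2 ∧ (q : ℤ) ∣ t.2.2.1)) ∪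
        F.filter (fun t => q ∣ t.1.1 * t.1.2 ∧ (q : ℤ) ∣ t.2.1 * t.2.2.1))) := by
    intro t ht
    obtain ⟨-, p, hp, hp1, hp2, hp3, hp4⟩ := hF t ht
    have hpQ : p ∈ QQ := by
      rw [hQQ, mem_filter, mem_Ioo]
      refine ⟨⟨(Nat.floor_lt (by linarith)).2 hp1, ?_⟩, hp⟩
      exact Nat.lt_succ_of_le (Nat.le_floor hp2)
    rw [mem_biUnion]
    refine ⟨p, hpQ, ?_⟩
    rw [mem_union, mem_union, mem_filter, mem_filter, mem_filter]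
    by_cases hnk : p ∣ t.1.1 * t.1.2
    · exact Or.inr ⟨ht, hnk, hp3⟩
    · have hZ : (p : ℤ) ∣ t.2.2.2 := hp4.resolve_left hnk
      rcases (Nat.prime_iff_prime_int.mp hp).dvd_or_dvd hp3 with h5 | h5
      · exact Or.inl (Or.inl ⟨ht, hnk, hZ, h5⟩)
      · exact Or.inl (Or.inr ⟨ht, hnk, hZ, h5⟩)
  have hcard : (F.card : ℝ) ≤ ∑ q ∈ QQ, 3 * (C * ((q : ℝ) ^ 2)⁻¹ + E) * (Y * Y₂) := by
    have h5 : F.card ≤ ∑ q ∈ QQ,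
      ((F.filter (fun t => ¬ q ∣ t.1.1 * t.1.2 ∧ (q : ℤ) ∣ t.2.2.2 ∧ (q : ℤ) ∣ t.2.1) ∪
        F.filter (fun t => ¬ q ∣ t.1.1 * t.1.2 ∧ (q : ℤ) ∣ t.2.2.2 ∧ (q : ℤ) ∣ t.2.2.1)) ∪
        F.filter (fun t => q ∣ t.1.1 * t.1.2 ∧ (q : ℤ) ∣ t.2.1 * t.2.2.1)).card :=
      (card_le_card hcov).trans card_biUnion_le
    refine (Nat.cast_le.2 h5).trans ?_
    rw [Nat.cast_sum]
    exact Finset.sum_le_sum hone
  have hs1 : ∑ q ∈ QQ, ((q : ℝ) ^ 2)⁻¹ ≤ 2 / x := by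
    have h5 : ∑ q ∈ QQ, ((q : ℝ) ^ 2)⁻¹ ≤ ∑ q ∈ Ioo ⌊x⌋₊ (⌊p0⌋₊ + 1), ((q : ℝ) ^ 2)⁻¹ :=
      Finset.sum_le_sum_of_subset_of_nonneg (filter_subset _ _) (fun _ _ _ => by positivity)
    have h6 := sum_Ioo_inv_sq_le (α := ℝ) ⌊x⌋₊ (⌊p0⌋₊ + 1)
    refine (h5.trans h6).trans ?_
    exact div_le_div_of_nonneg_left (by norm_num) (by linarith) (Nat.lt_floor_add_one x).le
  have hs2 : (QQ.card : ℝ) ≤ p0 := by
    have h5 : QQ.card ≤ ⌊p0⌋₊ := by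
      refine (card_filter_le _ _).trans ?_
      rw [Nat.card_Ioo]
      omega
    exact (Nat.cast_le.2 h5).trans (Nat.floor_le hp00)
  have hsum : ∑ q ∈ QQ, 3 * (C * ((q : ℝ) ^ 2)⁻¹ + E) * (Y * Y₂) =
      (3 * C * (∑ q ∈ QQ, ((q : ℝ) ^ 2)⁻¹) + 3 * ((QQ.card : ℝ) * E)) * (Y * Y₂) := by
    rw [← Finset.sum_mul, ← Finset.mul_sum, Finset.sum_add_distrib, ← Finset.mul_sum, sum_const,
      nsmul_eq_mul]
    ring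
  rw [hsum] at hcard
  refine hcard.trans (mul_le_mul_of_nonneg_right ?_ hV0)
  refine le_trans ?_ (TWD_fin δ N C hδ hC1' hNone hz)
  rw [← hx]
  have h7 : 3 * C * (∑ q ∈ QQ, ((q : ℝ) ^ 2)⁻¹) ≤ 3 * C * (2 / x) :=
    mul_le_mul_of_nonneg_left hs1 (by linarith)
  have h8 : (QQ.card : ℝ) * E ≤ N ^ (δ / 100) * N ^ (-(δ / 3)) := by
    calc (QQ.card : ℝ) * E ≤ p0 * E := mul_le_mul_of_nonneg_right hs2 hE0
      _ = N ^ (δ / 100) * (p0 * relE δ N Y Y₂ p0) := by rw [hE]; ring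
      _ ≤ _ := mul_le_mul_of_nonneg_left hRS (Real.rpow_nonneg hN0.le _)
  linarith

end Pool.Agent.T5
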