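import Pool.Agent.helper3.T5.SpecA

set_option autoImplicit false

/-!
# T5, module ADVL: divisibility by an integer
-/

namespace Pool.Agent.T5

open Finset NumberField Pool.Agent.helper3.FT Pool.Agent.helper47.RA

lemma ADVL_int (t k D x Y c N : ℤ) (ht : t = 0 ∨ t = 1) (hk : D = t + 4 * k) (hc : c ≠ 0)
    (hY : c ∣ Y) (hN : c ^ 2 * N = x ^ 2 + t * x * Y - k * Y ^ 2) : c ∣ x := by
  obtain ⟨Y', rfl⟩ := hY
  have htt : t ^ 2 = t := by rcases ht with rfl | rfl <;> norm_num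
  have h1 : (2 * x + t * (c * Y')) ^ 2 = c ^ 2 * (D * Y' ^ 2 + 4 * N) := by
    have : c ^ 2 * (D * Y' ^ 2 + 4 * N) = c ^ 2 * D * Y' ^ 2 + 4 * (c ^ 2 * N) := by ring
    rw [this, hN, hk]
    linear_combination c ^ 2 * Y' ^ 2 * htt
  have h2 : c ∣ 2 * x + t * (c * Y') := by
    have : c ^ 2 ∣ (2 * x + t * (c * Y')) ^ 2 := ⟨_, h1⟩
    exact (Int.pow_dvd_pow_iff two_ne_zero).1 this
  obtain ⟨T, hT⟩ := h2
  have h3 : T ^ 2 = D * Y' ^ 2 + 4 * N := by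
    apply mul_left_cancel₀ (pow_ne_zero 2 hc)
    rw [← h1, hT]
    ring
  have h4 : 2 * x = c * (T - t * Y') := by linear_combination hT
  have h5 : (2 : ℤ) ∣ T - t * Y' := by
    have e1 : T ^ 2 = t * Y' ^ 2 + 2 * (2 * k * Y' ^ 2 + 2 * N) := by rw [h3, hk]; ring
    rw [← even_iff_two_dvd, Int.even_sub, Int.even_mul]
    have e2 : Even (T ^ 2) ↔ Even (t * Y' ^ 2) := by
      rw [e1, Int.even_add]
      simp
    rw [Int.even_pow' two_ne_zero, Int.even_mul, Int.even_pow' two_ne_zero] at e2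
    exact e2
  obtain ⟨s, hs⟩ := h5
  refine ⟨s, ?_⟩
  rw [hs] at h4
  apply mul_left_cancel₀ (two_ne_zero (α := ℤ))
  rw [h4]; ring

theorem ADVL : ADVL_stmt := by
  intro K _ _ Q x c N hc hY hN
  obtain ⟨x₁, hx₁⟩ := Q.exists_re x
  generalize Q.Y x = y at hx₁ hY
  rw [hx₁, Q.norm_form] at hN
  have h1 : x₁ ^ 2 + Q.t * x₁ * y - Q.k * y ^ 2 = c ^ 2 * N := QF.int_inj hN
  rw [hx₁]
  exact (Q.int_dvd_iff c hc x₁ y).2 ⟨ADVL_int Q.t Q.k Q.D x₁ y c N Q.ht Q.hk hc hY h1.symm, hY⟩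

end Pool.Agent.T5
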