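import Pool.Agent.helper3.T5.SpecA

set_option autoImplicit false

/-!
# T5, module APRM: ramified primes and primitive ideals
-/

namespace Pool.Agent.T5

open Finset NumberField Pool.Agent.helper3.FT Pool.Agent.helper47.RA

variable {K : Type} [Field K] [NumberField K]

lemma APRM_bar (Q : QF K) (P : Ideal (𝓞 K)) (p : ℕ) (hp : p.Prime) (hD : (p : ℤ) ∣ Q.D)
    (hP : Ideal.absNorm P = p) : Q.bar P = P := by
  have hprime : Prime P := h96_prime_of_norm hp hP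
  have hPp : P.IsPrime := Ideal.isPrime_of_prime hprime
  have h1 : (p : 𝓞 K) ∈ P := by
    have := Ideal.absNorm_mem P
    rwa [hP] at this
  have h2 : (Q.D : 𝓞 K) ∈ P := by
    obtain ⟨c, hc⟩ := hD
    rw [hc]
    push_cast
    exact P.mul_mem_right _ h1
  have h3 : (2 * Q.ω - Q.t : 𝓞 K) ∈ P := by
    rw [← Q.delta_sq] at h2
    exact hPp.mem_of_pow_mem 2 h2
  have h4 : Q.bar P ≤ P := by
    unfold QF.bar
    rw [Ideal.map_le_iff_le_comap]
    intro x hx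
    rw [Ideal.mem_comap]
    have h5 : Q.cj x = x - Q.Y x * (2 * Q.ω - Q.t) := by
      rw [← Q.sub_cj x]; ring
    rw [h5]
    exact P.sub_mem hx (P.mul_mem_left _ h3)
  have h5 : P ∣ Q.bar P := Ideal.dvd_iff_le.2 h4
  exact (h96_eq_of_dvd h5 (by rw [Q.absNorm_bar, hP]; exact hp.ne_zero) (by rw [Q.absNorm_bar])).symm

lemma APRM_ex (Q : QF K) (a : Ideal (𝓞 K)) (p : ℕ) (hp : p.Prime) (ha : Prim a)
    (h : p ∣ Ideal.absNorm a) : ∃ P : Ideal (𝓞 K), Ideal.absNorm P = p ∧ P ∣ a := by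
  refine ⟨a ⊔ Ideal.span {(p : 𝓞 K)}, ?_, Ideal.dvd_iff_le.2 le_sup_left⟩
  refine h96_gcd_q Q p hp a (ha p hp) ?_
  intro htop
  have hc : IsCoprime a (Ideal.span {(p : 𝓞 K)}) := Ideal.isCoprime_iff_sup_eq.2 htop
  have h1 : Ideal.span {(p : 𝓞 K)} ∣ a * Q.bar a := by
    rw [Q.mul_bar, Ideal.dvd_iff_le, Ideal.span_singleton_le_span_singleton]
    exact_mod_cast Nat.cast_dvd_cast (α := 𝓞 K) h
  have h2 : Ideal.span {(p : 𝓞 K)} ∣ Q.bar a := hc.symm.dvd_of_dvd_mul_left h1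
  have h3 := h96_dvd_of_bar Q h2
  rw [h96_bar_q] at h3
  exact ha p hp h3

theorem APRM : APRM_stmt := by
  intro K _ _ Q a p hp hD ha0 ha hdvd
  obtain ⟨P, hP, c, rfl⟩ := APRM_ex Q a p hp ha ((dvd_pow_self p two_ne_zero).trans hdvd)
  rw [map_mul, hP, sq] at hdvd
  have h1 : p ∣ Ideal.absNorm c := Nat.dvd_of_mul_dvd_mul_left hp.pos hdvd
  have hc : Prim c := fun q hq h => ha q hq (h.trans (dvd_mul_left _ _))
  obtain ⟨P', hP', c', rfl⟩ := APRM_ex Q c p hp hc h1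
  have e1 : P * P = Ideal.span {(p : 𝓞 K)} := by
    have := Q.mul_bar P
    rwa [APRM_bar Q P p hp hD hP, hP] at this
  have e2 : P' * P' = Ideal.span {(p : 𝓞 K)} := by
    have := Q.mul_bar P'
    rwa [APRM_bar Q P' p hp hD hP', hP'] at this
  have e3 : P = P' := pow_inj P P' 2 two_ne_zero (by rw [sq, sq, e1, e2])
  subst e3
  refine ha p hp ?_
  rw [← mul_assoc, e1]
  exact dvd_mul_right _ _

end Pool.Agent.T5
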