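import Pool.Agent.helper26.T5.SpecH

set_option autoImplicit false

/-!
# T5, module HSQ
-/

namespace Pool.Agent.helper26.T5

open Finset NumberField Pool.Agent.helper3.FT Pool.Agent.helper47.RA Pool.Agent.T5
open Pool.Agent.helper28.LT (rad)

theorem hsq (hARAM : ARAM_stmt) (hASQF : ASQF_stmt) : HSQ := by
  intro K _ _ Q p z N hp hN hp2 hY
  by_cases hD : (p : ℤ) ∣ Q.D
  · exact hARAM K Q z N p hp hD hN hp2
  · have h1 : z ^ 5 * Q.cj (z ^ 5) = ((N ^ 5 : ℤ) : 𝓞 K) := by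
      rw [map_pow, ← mul_pow, hN]
      push_cast
      rfl
    have h2 : (p : ℤ) ∣ N ^ 5 := dvd_pow ((dvd_pow_self _ two_ne_zero).trans hp2) (by norm_num)
    have h3 := Q.dvd_of_dvd p hp (z ^ 5) _ h1 hY h2
    exact (hASQF K Q p 5 hp hD (by norm_num)).1 z h3

end Pool.Agent.helper26.T5
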