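import Pool.Agent.helper82.T5.SpecS

set_option autoImplicit false

/-!
# T5, module SUC: injection for `gcd = g`
-/

namespace Pool.Agent.T5

open Finset NumberField Pool.Agent.helper3.FT Pool.Agent.helper47.RA

/-- what BT needs about one tuple -/
def SUC_good (κ N Y Y₂ : ℝ) (g : ℕ) (t : Tpl) : Prop :=
  Cen κ (N * (g : ℝ) ^ 2) Y Y₂ t ∧ Nat.Coprime t.1.1 g ∧ (g : ℤ) ^ 2 ∣ dis t ∧
    ∃ d₁ d₂ : ℕ, g = d₁ * d₂ ∧ Nat.Coprime d₁ d₂ ∧ (d₁ : ℤ) ∣ t.2.1 ∧ (d₁ : ℤ) ∣ t.2.2.1 ∧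
      IsCoprime (d₂ : ℤ) (t.2.2.2 * lam t)

lemma SUC_fin (hSFA : SFA_stmt) {K : Type} [Field K] [NumberField K] (Q : QF K) (hD : Q.D < 0)
    (κ N Y d : ℝ) (g : ℕ) : (GB Q κ N Y d g).Finite := by
  have h1 : (⋃ a ∈ IA K Y, (fun α => (a, α)) '' AL Q a (N ^ d * √(-(Q.D : ℝ)))).Finite :=
    Set.Finite.biUnion (hSFA.1 K Y) (fun a _ => (hSFA.2.1 K Q hD a _).image _)
  refine h1.subset ?_
  rintro ⟨a, α⟩ ⟨⟨h2, h3, -⟩, -⟩
  exact Set.mem_biUnion h2 ⟨α, h3, rfl⟩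

lemma SUC_rpow (N d : ℝ) (hN : 0 < N) (D : ℝ) :
    N ^ (1 / 2 + d) * √D / √N = N ^ d * √D := by
  rw [Real.rpow_add hN, ← Real.sqrt_eq_rpow]
  have : √N ≠ 0 := (Real.sqrt_pos.2 hN).ne'
  field_simp

lemma SUC_tup (hACEN : ACEN_stmt) {K : Type} [Field K] [NumberField K] (Q : QF K) (hD : Q.D < 0)
    (κ N Y d : ℝ) (g : ℕ) (hN : 0 < N) (hY : 0 < Y) (hg : 1 ≤ g) (hD1 : N / 2 < -(Q.D : ℝ))
    (hD2 : -(Q.D : ℝ) ≤ N) (x : Ideal (𝓞 K) × 𝓞 K) (hx : x ∈ GB Q κ N Y d g) (γ : 𝓞 K)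
    (hA : Adm Q x.1 x.2 γ) (hG : GoodR Q κ (N ^ (1 / 2 + d)) x.1 x.2 γ) (t : Tpl)
    (ht : TupOf Q x.1 x.2 γ g t) : SUC_good κ N Y (N ^ (1 / 2 + d)) g t := by
  obtain ⟨⟨h1, h2, -⟩, h4⟩ := hx
  refine ⟨?_, ?_, ?_, ht.dd⟩
  · rw [hACEN K Q hD x.1 x.2 γ g t hA ht hg κ N Y (N ^ (1 / 2 + d)) hN hY
      (Real.rpow_pos_of_pos hN _)]
    refine ⟨h1.2.2.2.2.1, h1.2.2.2.2.2, hD1, hD2, ?_, hG⟩
    rw [SUC_rpow N d hN]
    exact h2.2.2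
  · by_contra hc
    obtain ⟨p, hp, hp1, hp2⟩ := Nat.Prime.not_coprime_iff_dvd.1 hc
    refine h4 p hp hp2 ?_
    rw [← ht.n]
    have h5 : p ^ 2 ∣ t.1.1 * g := by
      rw [sq]
      exact Nat.mul_dvd_mul hp1 hp2
    exact_mod_cast h5
  · rw [ht.D]
    exact dvd_mul_left _ _

lemma SUC_one (hACEN : ACEN_stmt) (hSFA : SFA_stmt) (hALG : ALG_stmt) (κ N Y d : ℝ) (g : ℕ)
    (hN : 10 ≤ N) (hY : 0 < Y) (hg : 1 ≤ g) (D : ℤ) (hD : D ∈ DN N) :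
    ∃ FD : Finset Tpl, (FD.card : ℝ) = SF (fun _ E => ((GB E.Q κ N Y d g).ncard : ℝ)) D ∧
      ∀ t ∈ FD, SUC_good κ N Y (N ^ (1 / 2 + d)) g t ∧ dis t = D * (g : ℤ) ^ 2 := by
  classical
  by_cases h : Nonempty (Fld D)
  · have hSF : SF (fun _ E => ((GB E.Q κ N Y d g).ncard : ℝ)) D =
        ((GB h.some.Q κ N Y d g).ncard : ℝ) := by
      unfold SF
      rw [dif_pos h]
    obtain ⟨E, hE⟩ : ∃ E : Fld D, E = h.some := ⟨_, rfl⟩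
    rw [hSF, ← hE]
    unfold DN at hD
    rw [mem_filter, mem_Icc] at hD
    obtain ⟨⟨hD1, -⟩, -, hD3⟩ := hD
    have hDE : (E.Q.D : ℝ) = D := by rw [E.hD]
    have hD4 : -(E.Q.D : ℝ) ≤ N := by
      rw [hDE]
      have h5 : -(D : ℝ) ≤ (⌊N⌋ : ℝ) := by
        have : -D ≤ ⌊N⌋ := by omega
        exact_mod_cast this
      exact h5.trans (Int.floor_le N)
    have hD5 : N / 2 < -(E.Q.D : ℝ) := by rw [hDE]; exact hD3
    have hD6 : E.Q.D < -4 := by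
      have : (E.Q.D : ℝ) < ((-4 : ℤ) : ℝ) := by push_cast; linarith
      exact_mod_cast this
    have hD7 : E.Q.D < 0 := by omega
    have hfin := SUC_fin hSFA E.Q hD7 κ N Y d g
    obtain ⟨φ, hφ1, hφ2, -⟩ := hALG E.K E.Q E.fin hD6
    refine ⟨hfin.toFinset.image (fun x => φ x.1 x.2), ?_, ?_⟩
    · rw [card_image_of_injOn, Set.ncard_eq_toFinset_card _ hfin]
      intro x hx x' hx' hxx
      rw [Set.Finite.coe_toFinset] at hx hx'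
      obtain ⟨⟨-, -, γ, hA, -, hgd⟩, -⟩ := hx
      obtain ⟨⟨-, -, γ', hA', -, hgd'⟩, -⟩ := hx'
      have h6 := hφ2 x.1 x.2 γ x'.1 x'.2 γ' hA hA' (by rw [hgd, hgd']) hxx
      exact Prod.ext h6.1 h6.2
    · intro t ht
      obtain ⟨x, hx, rfl⟩ := mem_image.1 ht
      rw [Set.Finite.mem_toFinset] at hx
      have hx2 := hx
      obtain ⟨⟨-, -, γ, hA, hG, hgd⟩, -⟩ := hx2
      have hT := hφ1 x.1 x.2 γ hA
      rw [hgd] at hT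
      refine ⟨SUC_tup hACEN E.Q hD7 κ N Y d g (by linarith) hY hg hD5 hD4 x hx γ hA hG _ hT, ?_⟩
      rw [hT.D, E.hD]
  · refine ⟨∅, ?_, by simp⟩
    unfold SF
    rw [dif_neg h]
    simp

theorem SUC (hACEN : ACEN_stmt) (hSFA : SFA_stmt) : ∀ δ : ℝ, SUC_stmt δ := by
  classical
  intro δ hδ hδ1 hALG hBT κ hκ
  obtain ⟨C, N₀, hC, hB⟩ := hBT κ hκ
  refine ⟨C, max N₀ 10, hC, ?_⟩
  intro N Y hN hY hY2 g hg hodd hgN
  have hN0 : N₀ ≤ N := (le_max_left _ _).trans hN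
  have hN10 : (10 : ℝ) ≤ N := (le_max_right _ _).trans hN
  have hY0 : 0 < Y := (Real.rpow_pos_of_pos (by linarith) _).trans_le hY
  have hg1 : 1 ≤ g := by omega
  have hex := SUC_one hACEN hSFA hALG κ N Y (δ / 100) g hN10 hY0 hg1
  choose! FD hFD1 hFD2 using hex
  have hdisj : ∀ D ∈ DN N, ∀ D' ∈ DN N, D ≠ D' → Disjoint (FD D) (FD D') := by
    intro D hD D' hD' hne
    rw [Finset.disjoint_left]
    intro t ht ht'
    have h1 := (hFD2 D hD t ht).2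
    have h2 := (hFD2 D' hD' t ht').2
    rw [h1] at h2
    have h3 : (g : ℤ) ^ 2 ≠ 0 := pow_ne_zero 2 (by exact_mod_cast (by omega : g ≠ 0))
    exact hne (mul_right_cancel₀ h3 h2)
  have hcard : (((DN N).biUnion FD).card : ℝ) =
      ∑ D ∈ DN N, SF (fun _ E => ((GB E.Q κ N Y (δ / 100) g).ncard : ℝ)) D := by
    rw [card_biUnion hdisj, Nat.cast_sum]
    exact Finset.sum_congr rfl fun D hD => hFD1 D hD
  rw [← hcard]
  refine hB N Y hN0 hY hY2 g hg hodd hgN _ ?_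
  intro t ht
  obtain ⟨D, hD, htD⟩ := mem_biUnion.1 ht
  exact (hFD2 D hD t htD).1

end Pool.Agent.T5
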