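import Pool.Agent.helper94.T5.SpecV

set_option autoImplicit false

/-!
# T5, module VLM: the limit of the volume
-/

namespace Pool.Agent.T5V

open MeasureTheory Set
open scoped ENNReal

lemma VLM_arcsin (κ : ℝ) (h0 : 0 < κ) (h1 : κ < 1 / 2) :
    0 < Real.arcsin κ ∧ Real.arcsin κ < Real.pi / 2 ∧ Real.arcsin κ ≤ Real.pi / 2 * κ := by
  have hpi := Real.pi_pos
  have ha : 0 < Real.arcsin κ := Real.arcsin_pos.2 h0
  have hb : Real.arcsin κ < Real.pi / 2 := Real.arcsin_lt_pi_div_two.2 (by linarith)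
  refine ⟨ha, hb, ?_⟩
  have h := Real.mul_le_sin ha.le hb.le
  rw [Real.sin_arcsin (by linarith) (by linarith)] at h
  have h3 : Real.arcsin κ = Real.pi / 2 * (2 / Real.pi * Real.arcsin κ) := by
    field_simp
  rw [h3]
  exact mul_le_mul_of_nonneg_left h (by positivity)

theorem VLM : VLM_stmt := by
  refine ⟨10, by norm_num, fun κ h0 h1 => ?_⟩
  obtain ⟨ha, hb, hc⟩ := VLM_arcsin κ h0 h1
  set s := Real.arcsin κ with hs
  have hpi := Real.pi_pos
  have hpi3 : Real.pi < 3.15 := Real.pi_lt_d2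
  have hl2 : Real.log 2 < 0.6931471808 := Real.log_two_lt_d9
  have hl0 : 0 < Real.log 2 := Real.log_pos (by norm_num)
  have hq : √2 ^ 2 = 2 := Real.sq_sqrt (by norm_num)
  have hq0 : 0 < √2 := Real.sqrt_pos.2 (by norm_num)
  have hq1 : √2 < 1.5 := by nlinarith
  have hq2 : 1.4 < √2 := by nlinarith
  have htar : Real.pi ^ 2 / 2 * (1 - 1 / √2) = 1 / 4 * Real.pi ^ 2 * (2 - √2) := by
    have : 1 / √2 = √2 / 2 := by
      rw [div_eq_div_iff hq0.ne' (by norm_num)]
      linarith [hq, sq (√2)]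
    rw [this]
    ring
  have hp2 : Real.pi ^ 2 < 9.95 := by nlinarith
  have hkl : κ * Real.log 2 < 0.35 := by nlinarith
  have hkl0 : 0 < κ * Real.log 2 := by positivity
  have hD : 0 < 2 - √2 - κ * Real.log 2 := by linarith
  have hD1 : 2 - √2 - κ * Real.log 2 < 1 := by linarith
  have hP : 0 < Real.pi - 2 * s := by linarith
  have hP2 : (Real.pi - 2 * s) ^ 2 ≤ Real.pi ^ 2 := by nlinarith
  refine ⟨?_, ?_, ?_⟩
  · rw [htar]
    unfold Iv
    rw [← hs]
    have e : 1 / 4 * (Real.pi - 2 * s) ^ 2 * (2 - √2 - κ * Real.log 2) -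
        1 / 4 * Real.pi ^ 2 * (2 - √2) =
        -((s * Real.pi - s ^ 2) * (2 - √2 - κ * Real.log 2) +
          1 / 4 * Real.pi ^ 2 * (κ * Real.log 2)) := by ring
    rw [e, abs_neg]
    have x1 : 0 ≤ s * Real.pi - s ^ 2 := by nlinarith
    have x2 : s * Real.pi - s ^ 2 ≤ 5 * κ := by nlinarith
    have x3 : (s * Real.pi - s ^ 2) * (2 - √2 - κ * Real.log 2) ≤ 5 * κ := by nlinarith
    have x4 : 0 ≤ (s * Real.pi - s ^ 2) * (2 - √2 - κ * Real.log 2) := by positivity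
    have x5 : 1 / 4 * Real.pi ^ 2 * (κ * Real.log 2) ≤ 5 * κ := by nlinarith
    have x6 : 0 ≤ 1 / 4 * Real.pi ^ 2 * (κ * Real.log 2) := by positivity
    rw [abs_of_nonneg (by linarith)]
    linarith
  · unfold Iv
    positivity
  · unfold Iv
    rw [← hs]
    have : 1 / 4 * (Real.pi - 2 * s) ^ 2 ≤ 1 / 4 * Real.pi ^ 2 := by linarith
    nlinarith [mul_pos hP hP]

end Pool.Agent.T5V
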